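import Pool.Agent.Helper56.BP.Level1K

/-!
# Level 1 in the cone frame

`Q` is a plane over `u`, `o` a point off `Q`, `p` a point of `Q` off `u`.  Users are the points
off `Q` which are not on the line `o ⊔ p`.  The rows in the plane `c ⊔ (o ⊔ p)` are zero rows;
among them are the rows through `o` and the rows through the points of `o ⊔ p`.
-/

set_option autoImplicit false
set_option linter.unusedSectionVars false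

namespace Pool.Agent.Helper74.RC

open Pool.Agent.Helper28.BPack Pool.Agent.Helper61.Motz Pool.Agent.Helper38.Thick
  Pool.Agent.Helper80.BP Pool.Agent.Helper56.BP

variable {L : Type} [Lattice L] [BoundedOrder L] [Finite L] [IsUpperModularLattice L]

/-- The line `o ⊔ p` and the line `u` are skew. -/
theorem cone_frame {A : Finset L} {u Q o p : L} (hA : ∀ a ∈ A, IsAtom a) (hu : rk u = 2)
    (hQ : rk Q = 3) (huQ : u ≤ Q) (ho : o ∈ A) (hoQ : ¬ o ≤ Q) (hp : p ∈ A) (hpQ : p ≤ Q)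
    (hpu : ¬ p ≤ u) : rk (o ⊔ p) = 2 ∧ rk (u ⊔ (o ⊔ p)) = 4 ∧ u ⊔ p = Q ∧
      (∀ x ∈ A, x ≤ o ⊔ p → x ≤ Q → x = p) := by
  have hop : o ≠ p := fun h => hoQ (h ▸ hpQ)
  have h1 : u ⊔ p = Q := eq_of_le_of_rk (sup_le huQ hpQ) (by
    rw [rk_sup_atom (hA p hp) hpu, hu, hQ])
  refine ⟨rk_line (hA o ho) (hA p hp) hop, ?_, h1, ?_⟩
  · have h2 : u ⊔ (o ⊔ p) = Q ⊔ o := by
      rw [sup_comm o p, ← sup_assoc, h1]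
    rw [h2, rk_sup_atom (hA o ho) hoQ, hQ]
  · intro x hx hxv hxQ
    by_contra hne
    have h3 : x ⊔ p = o ⊔ p := line_of (hA x hx) (hA p hp) hne hxv le_sup_right
      (rk_line (hA o ho) (hA p hp) hop)
    exact hoQ ((h3 ▸ le_sup_left : o ≤ x ⊔ p).trans (sup_le hxQ hpQ))

/-- A row off `c ⊔ (o ⊔ p)` avoids all points of `o ⊔ p`. -/
theorem row_off {A : Finset L} {u v : L} (hA : ∀ a ∈ A, IsAtom a) {x c z : L} (hx : x ∈ A)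
    (hxu : ¬ x ≤ u) (hc : c ∈ A) (hcu : c ≤ u) (hz : z ∈ A) (hzu : ¬ z ≤ u)
    (hzv : z ≤ v) (h : ¬ x ≤ c ⊔ v) : ¬ z ≤ x ⊔ c := by
  intro hzr
  have hxc : x ≠ c := fun e => hxu (e ▸ hcu)
  have hzc : z ≠ c := fun e => hzu (e ▸ hcu)
  have h1 : z ⊔ c = x ⊔ c := line_of (hA z hz) (hA c hc) hzc hzr le_sup_right
    (rk_line (hA x hx) (hA c hc) hxc)
  exact h ((h1 ▸ le_sup_left : x ≤ z ⊔ c).trans (sup_le (hzv.trans le_sup_right) le_sup_left))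

/-- **Level 1 of the cone.**  Every user `x` gets a colour `m x` with `x` off the plane
`m x ⊔ (o ⊔ p)`, different users different rows. -/
theorem level1_cone {A : Finset L} {u Q o p : L} [DecidableEq L]
    [DecidableRel (α := L) (· ≤ ·)] (hA : ∀ a ∈ A, IsAtom a) (hu : rk u = 2)
    (hQ : rk Q = 3) (huQ : u ≤ Q) (ho : o ∈ A) (hoQ : ¬ o ≤ Q) (hp : p ∈ A) (hpQ : p ≤ Q)
    (hpu : ¬ p ≤ u) (hU : 2 ≤ (A.filter (· ≤ u)).card)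
    (hmax : ∀ k, rk k = 2 → (∃ c ∈ A, c ≤ u ∧ c ≤ k) →
      (A.filter (· ≤ k)).card ≤ (A.filter (· ≤ u)).card) :
    ∃ m : L → L, (∀ x ∈ A, ¬ x ≤ Q → ¬ x ≤ o ⊔ p → m x ∈ A ∧ m x ≤ u ∧
        ¬ x ≤ m x ⊔ (o ⊔ p) ∧ ¬ x ⊔ m x ≤ m x ⊔ (o ⊔ p) ∧ ¬ x ⊔ m x ≤ Q ∧
        ¬ o ≤ x ⊔ m x ∧ (∀ z ∈ A, z ≤ o ⊔ p → ¬ z ≤ x ⊔ m x)) ∧
      (∀ x ∈ A, ¬ x ≤ Q → ¬ x ≤ o ⊔ p → ∀ y ∈ A, ¬ y ≤ Q → ¬ y ≤ o ⊔ p →
        x ⊔ m x = y ⊔ m y → x = y) := by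
  classical
  obtain ⟨hv, huv, hQe, hvQ⟩ := cone_frame hA hu hQ huQ ho hoQ hp hpQ hpu
  have hcv : ∀ c ∈ A, c ≤ u → ¬ c ≤ o ⊔ p := fun c hc hcu h =>
    hpu (hvQ c hc h (hcu.trans huQ) ▸ hcu)
  have hzu : ∀ z ∈ A, z ≤ o ⊔ p → ¬ z ≤ u := fun z hz h h' => hcv z hz h' h
  have hK3 : ∀ c ∈ A, c ≤ u → rk (c ⊔ (o ⊔ p)) = 3 := fun c hc hcu => by
    rw [sup_comm, rk_sup_atom (hA c hc) (hcv c hc hcu), hv]
  set R : Finset L := A.filter (fun x => ¬ x ≤ Q ∧ ¬ x ≤ o ⊔ p) with hR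
  have hmR : ∀ x, x ∈ R ↔ x ∈ A ∧ ¬ x ≤ Q ∧ ¬ x ≤ o ⊔ p := fun x => by simp [hR]
  have hRu : ∀ x ∈ R, x ∈ A ∧ ¬ x ≤ u := fun x hx =>
    ⟨((hmR x).mp hx).1, fun h => ((hmR x).mp hx).2.1 (h.trans huQ)⟩
  -- the zero rows
  set Z : L → Prop := fun k => ∃ c ∈ A, c ≤ u ∧ c ≤ k ∧ k ≤ c ⊔ (o ⊔ p) with hZ
  have hZiff : ∀ x ∈ R, ∀ c ∈ A, c ≤ u → (Z (x ⊔ c) ↔ x ≤ c ⊔ (o ⊔ p)) := by
    intro x hx c hc hcu
    constructor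
    · rintro ⟨c', hc', hcu', h1, h2⟩
      have hxc : x ≠ c := fun h => (hRu x hx).2 (h ▸ hcu)
      have hcc : c = c' := by
        by_contra hne
        have h3 := line_two (hA c hc) (hA c' hc') hne (le_sup_right : c ≤ x ⊔ c) h1
          (rk_line (hA x (hRu x hx).1) (hA c hc) hxc) hcu hcu' hu
        exact (hRu x hx).2 (h3 ▸ le_sup_left)
      rw [hcc]
      exact (hcc ▸ le_sup_left : x ≤ x ⊔ c).trans h2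
    · intro h
      exact ⟨c, hc, hcu, le_sup_right, sup_le h le_sup_left⟩
  have hZ1 : ∀ x ∈ R, ∀ c ∈ A, c ≤ u → ∀ c' ∈ A, c' ≤ u → Z (x ⊔ c) → Z (x ⊔ c') → c = c' := by
    intro x hx c hc hcu c' hc' hcu' h h'
    rw [hZiff x hx c hc hcu] at h
    rw [hZiff x hx c' hc' hcu'] at h'
    by_contra hcc
    apply ((hmR x).mp hx).2.2
    refine inter_line (hK3 c hc hcu) (hK3 c' hc' hcu') hv (hA x (hRu x hx).1) le_sup_right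
      le_sup_right h h' ?_
    intro e
    have h1 : c' ≤ c ⊔ (o ⊔ p) := e ▸ le_sup_left
    have h2 : u ≤ c ⊔ (o ⊔ p) := by
      rw [← line_of (hA c hc) (hA c' hc') hcc hcu hcu' hu]
      exact sup_le le_sup_left h1
    have h3 := rk_mono (sup_le h2 le_sup_right : u ⊔ (o ⊔ p) ≤ c ⊔ (o ⊔ p))
    have h4 := hK3 c hc hcu
    omega
  obtain ⟨m, hm, hminj⟩ := level1Z Z hA hu hU hmax hRu hZ1
  refine ⟨m, ?_, ?_⟩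
  · intro x hx hxQ hxv
    have hxR : x ∈ R := (hmR x).mpr ⟨hx, hxQ, hxv⟩
    obtain ⟨h1, h2, h3⟩ := hm x hxR
    rw [hZiff x hxR _ h1 h2] at h3
    have h4 := fun z hz hzv => row_off (u := u) hA hx (hRu x hxR).2 h1 h2 hz (hzu z hz hzv) hzv h3
    exact ⟨h1, h2, h3, fun h => h3 (le_sup_left.trans h), fun h => hxQ (le_sup_left.trans h),
      h4 o ho le_sup_left, h4⟩
  · intro x hx hxQ hxv y hy hyQ hyv e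
    exact hminj x ((hmR x).mpr ⟨hx, hxQ, hxv⟩) y ((hmR y).mpr ⟨hy, hyQ, hyv⟩) e

/-- **Start of the cone**: level 1 together with planes for the rows. -/
theorem start_cone {A : Finset L} {u Q o p : L} [DecidableEq L]
    [DecidableRel (α := L) (· ≤ ·)] {adj : L → L → Prop}
    (hA : ∀ a ∈ A, IsAtom a) (hu : rk u = 2)
    (hQ : rk Q = 3) (huQ : u ≤ Q) (ho : o ∈ A) (hoQ : ¬ o ≤ Q) (hp : p ∈ A) (hpQ : p ≤ Q)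
    (hpu : ¬ p ≤ u) (hU : 2 ≤ (A.filter (· ≤ u)).card)
    (hmax : ∀ k, rk k = 2 → (∃ c ∈ A, c ≤ u ∧ c ≤ k) →
      (A.filter (· ≤ k)).card ≤ (A.filter (· ≤ u)).card)
    -- the planes of an admissible pair
    (had : ∀ k H, adj k H → rk H = 3 ∧ k ≤ H ∧ ¬ u ≤ H ∧ ¬ o ≤ H)
    -- level 2: for every colour, the rows off `Q` and off `c ⊔ (o ⊔ p)` have different planes
    (h2 : ∀ c ∈ A, c ≤ u → ∃ H : L → L,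
      (∀ x ∈ A, ¬ x ≤ Q → ¬ x ≤ c ⊔ (o ⊔ p) → adj (x ⊔ c) (H (x ⊔ c))) ∧
      (∀ x ∈ A, ¬ x ≤ Q → ¬ x ≤ c ⊔ (o ⊔ p) → ∀ y ∈ A, ¬ y ≤ Q → ¬ y ≤ c ⊔ (o ⊔ p) →
        H (x ⊔ c) = H (y ⊔ c) → x ⊔ c = y ⊔ c)) :
    ∃ m P : L → L, (∀ x ∈ A, ¬ x ≤ Q → ¬ x ≤ o ⊔ p → m x ∈ A ∧ m x ≤ u ∧
        adj (x ⊔ m x) (P x) ∧ (∀ z ∈ A, z ≤ o ⊔ p → ¬ z ≤ x ⊔ m x)) ∧
      (∀ x ∈ A, ¬ x ≤ Q → ¬ x ≤ o ⊔ p → ∀ y ∈ A, ¬ y ≤ Q → ¬ y ≤ o ⊔ p →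
        x ⊔ m x = y ⊔ m y → x = y) ∧
      (∀ x ∈ A, ¬ x ≤ Q → ¬ x ≤ o ⊔ p → ∀ y ∈ A, ¬ y ≤ Q → ¬ y ≤ o ⊔ p →
        P x = P y → x = y) := by
  classical
  obtain ⟨m, hm, hminj⟩ := level1_cone hA hu hQ huQ ho hoQ hp hpQ hpu hU hmax
  choose! H hH hHinj using h2
  refine ⟨m, fun x => H (m x) (x ⊔ m x), ?_, hminj, ?_⟩
  · intro x hx hxQ hxv
    obtain ⟨h1, h2, h3, -, -, -, h4⟩ := hm x hx hxQ hxv
    exact ⟨h1, h2, hH _ h1 h2 x hx hxQ h3, h4⟩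
  · intro x hx hxQ hxv y hy hyQ hyv e
    obtain ⟨h1, h2, h3, -⟩ := hm x hx hxQ hxv
    obtain ⟨k1, k2, k3, -⟩ := hm y hy hyQ hyv
    have e' : H (m x) (x ⊔ m x) = H (m y) (y ⊔ m y) := e
    obtain ⟨a1, a2, a3, -⟩ := had _ _ (hH _ h1 h2 x hx hxQ h3)
    obtain ⟨b1, b2, b3, -⟩ := had _ _ (hH _ k1 k2 y hy hyQ k3)
    -- the colours agree
    have hcc : m x = m y := by
      by_contra hne
      apply a3
      rw [← line_of (hA _ h1) (hA _ k1) hne h2 k2 hu]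
      exact sup_le (le_sup_right.trans a2) (e' ▸ le_sup_right.trans b2)
    apply hminj x hx hxQ hxv y hy hyQ hyv
    rw [hcc] at e' h1 h2 h3 ⊢
    exact hHinj _ h1 h2 x hx hxQ h3 y hy hyQ k3 e'

/-- The static version: balanced ownership of all rows off `c ⊔ (o ⊔ p)`. -/
theorem own_cone {A : Finset L} {u Q o p : L} [DecidableEq L]
    [DecidableRel (α := L) (· ≤ ·)] (hA : ∀ a ∈ A, IsAtom a) (hu : rk u = 2)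
    (hQ : rk Q = 3) (huQ : u ≤ Q) (ho : o ∈ A) (hoQ : ¬ o ≤ Q) (hp : p ∈ A) (hpQ : p ≤ Q)
    (hpu : ¬ p ≤ u) (hU : 2 ≤ (A.filter (· ≤ u)).card)
    (hmax : ∀ k, rk k = 2 → (∃ c ∈ A, c ≤ u ∧ c ≤ k) →
      (A.filter (· ≤ k)).card ≤ (A.filter (· ≤ u)).card) :
    ∃ (own : L → Finset L) (cls : L → ℕ),
      SC A (A.filter (fun x => ¬ x ≤ Q ∧ ¬ x ≤ o ⊔ p)) u own cls ∧
      (∀ x ∈ A, ¬ x ≤ Q → ¬ x ≤ o ⊔ p → ∀ c ∈ own x, ¬ x ≤ c ⊔ (o ⊔ p)) ∧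
      (∀ x ∈ A, ¬ x ≤ Q → ¬ x ≤ o ⊔ p → ∀ c ∈ A, c ≤ u → ¬ x ≤ c ⊔ (o ⊔ p) →
        ∃ y ∈ A, ¬ y ≤ Q ∧ ¬ y ≤ o ⊔ p ∧ c ∈ own y ∧ y ⊔ c = x ⊔ c ∧ cls y ≤ cls x) := by
  classical
  obtain ⟨hv, huv, hQe, hvQ⟩ := cone_frame hA hu hQ huQ ho hoQ hp hpQ hpu
  have hmR : ∀ x, x ∈ A.filter (fun x => ¬ x ≤ Q ∧ ¬ x ≤ o ⊔ p) ↔
      x ∈ A ∧ ¬ x ≤ Q ∧ ¬ x ≤ o ⊔ p := fun x => by simp
  obtain ⟨own, cls, h1, h2, h3⟩ := level1K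
    (R := A.filter (fun x => ¬ x ≤ Q ∧ ¬ x ≤ o ⊔ p)) hA hu hv huv hU hmax
    (fun x hx => ⟨((hmR x).mp hx).1, fun h => ((hmR x).mp hx).2.1 (h.trans huQ),
      ((hmR x).mp hx).2.2⟩)
  refine ⟨own, cls, h1, fun x hx hxQ hxv c hc => h2 x ((hmR x).mpr ⟨hx, hxQ, hxv⟩) c hc, ?_⟩
  intro x hx hxQ hxv c hc hcu h
  obtain ⟨y, hy, k⟩ := h3 x ((hmR x).mpr ⟨hx, hxQ, hxv⟩) c hc hcu h
  obtain ⟨i1, i2, i3⟩ := (hmR y).mp hy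
  exact ⟨y, i1, i2, i3, k⟩

end Pool.Agent.Helper74.RC
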