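import Pool.Agent.Helper74.RC.RainbowFin
import Pool.Agent.Helper56.BP.ConeKer
import Pool.Agent.Helper83.RC.ConeW
import Pool.Agent.Helper38.SC.Shares3

/-!
# MP_47cd0b (room C): levels one and three at once, by the rainbow theorem

In the cone frame all available rows of a colour have different planes (kernel).  The users choose
their colour and their second line at the same time: the vertices are the triples
(user, colour, line), the resources are the row and the line.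
-/

set_option autoImplicit false
set_option linter.unusedSectionVars false

namespace Pool.Agent.Helper74.RC.RB

open Pool.Agent.Helper28.BPack Pool.Agent.Helper61.Motz Pool.Agent.Helper38.Thick
  Pool.Agent.Helper38.SC Pool.Agent.Helper56.BP

variable {L : Type} [Lattice L] [BoundedOrder L] [Finite L] [IsUpperModularLattice L]

/-- The cone frame over an arbitrary line `u`. -/
structure FrW [DecidableRel (α := L) (· ≤ ·)] (A : Finset L) (Q o u : L) (ρ : L → L) : Prop where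
  at_ : ∀ a ∈ A, IsAtom a
  rQ : rk Q = 3
  oA : o ∈ A
  oQ : ¬ o ≤ Q
  ru : rk u = 2
  uQ : u ≤ Q
  U2 : 2 ≤ (A.filter (· ≤ u)).card
  tri : ∃ a ∈ A, a ≤ Q ∧ ¬ a ≤ u
  rho : ∀ x ∈ A, ¬ x ≤ Q → ρ (u ⊔ x) ∈ A ∧ ¬ ρ (u ⊔ x) ≤ Q ∧ ρ (u ⊔ x) ≤ u ⊔ x
  rhoo : ρ (u ⊔ o) = o

/-- The usable planes of the row `k`: spanned by `A`. -/
def AW (A : Finset L) (Q o u k H : L) : Prop := ADC A Q o u k H ∧ ∃ y ∈ A, y ≤ H ∧ ¬ y ≤ k

section

variable [DecidableEq L] [DecidableRel (α := L) (· ≤ ·)] {A : Finset L} {Q o u : L} {ρ : L → L}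

theorem FrW.off (F : FrW A Q o u ρ) {x : L} (h : ¬ x ≤ Q) : ¬ x ≤ u := fun h' => h (h'.trans F.uQ)

/-- The planes over `u`. -/
theorem FrW.pl (F : FrW A Q o u ρ) {x z : L} (hx : x ∈ A) (hxu : ¬ x ≤ u) (hz : z ∈ A)
    (hzu : ¬ z ≤ u) (h : z ≤ u ⊔ x) : u ⊔ z = u ⊔ x :=
  eq_of_le_of_rk (sup_le le_sup_left h) (by
    rw [rk_sup_atom (F.at_ x hx) hxu, rk_sup_atom (F.at_ z hz) hzu])

/-- **The frame exists over every plane `Q` over every line `u`.** -/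
theorem exists_frW (hA : ∀ a ∈ A, IsAtom a) (hrA : rk (A.sup id) = 4) (hcore : Core A)
    (hu : rk u = 2) (hU : 2 ≤ (A.filter (· ≤ u)).card)
    (hQ : rk Q = 3) (huQ : u ≤ Q) (hQA : ∃ a ∈ A, a ≤ Q ∧ ¬ a ≤ u) :
    ∃ (o : L) (ρ : L → L), FrW A Q o u ρ ∧ NF A Q o u := by
  classical
  have ho : ∃ o ∈ A, ¬ o ≤ Q ∧ NF A Q o u := by
    obtain ⟨o0, ho0, ho0Q⟩ := exists_not_le hrA (p := Q) (by omega)
    by_cases hd : ∃ c ∈ A, c ≤ u ∧ DegA A u Q c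
    · obtain ⟨c0, hc0, hc0u, hd0⟩ := hd
      by_cases hx : ∃ x ∈ A, ¬ x ≤ Q ∧ ¬ DegA A u (u ⊔ x) c0
      · obtain ⟨x, hx, hxQ, hxd⟩ := hx
        refine ⟨x, hx, hxQ, fun c hc hcu => ?_⟩
        by_cases hcc : c = c0
        · right
          left
          rw [hcc]
          exact hxd
        · left
          intro h
          exact hcc (deg_unique hA hcore hu hQ huQ hQA hc hcu hc0 hc0u h hd0)
      · push Not at hx
        refine ⟨o0, ho0, ho0Q, fun c hc hcu => ?_⟩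
        by_cases hcc : c = c0
        · right
          right
          rw [hcc]
          exact hx
        · left
          intro h
          exact hcc (deg_unique hA hcore hu hQ huQ hQA hc hcu hc0 hc0u h hd0)
    · push Not at hd
      exact ⟨o0, ho0, ho0Q, fun c hc hcu => Or.inl (hd c hc hcu)⟩
  obtain ⟨o, hoA, hoQ, hNF⟩ := ho
  set ρ : L → L := fun P => if o ≤ P then o else
    if h : ∃ a ∈ A, a ≤ P ∧ ¬ a ≤ Q then h.choose else o with hρ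
  refine ⟨o, ρ, ⟨hA, hQ, hoA, hoQ, hu, huQ, hU, hQA, ?_, ?_⟩, hNF⟩
  · intro x hx hxQ
    by_cases h : o ≤ u ⊔ x
    · have e : ρ (u ⊔ x) = o := by simp only [hρ]; exact if_pos h
      rw [e]
      exact ⟨hoA, hoQ, h⟩
    · have h2 : ∃ a ∈ A, a ≤ u ⊔ x ∧ ¬ a ≤ Q := ⟨x, hx, le_sup_right, hxQ⟩
      have e : ρ (u ⊔ x) = h2.choose := by
        simp only [hρ]
        rw [if_neg h, dif_pos h2]
      rw [e]
      exact ⟨h2.choose_spec.1, h2.choose_spec.2.2, h2.choose_spec.2.1⟩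
  · simp only [hρ]
    exact if_pos le_sup_right

/-- **The kernel**: Hall's condition for the available rows of the colour `c`. -/
theorem kerW (F : FrW A Q o u ρ) (hNF : NF A Q o u) {c : L} (hc : c ∈ A) (hcu : c ≤ u)
    (S : Finset L)
    (hS : ∀ k ∈ S, ∃ x ∈ A, ¬ x ≤ Q ∧ ¬ ρ (u ⊔ x) ≤ x ⊔ c ∧ k = x ⊔ c) :
    S.card ≤ (S.biUnion (fun k => (Set.toFinite {H | AW A Q o u k H}).toFinset)).card := by
  classical
  have hne : ∀ x, ¬ x ≤ u → x ≠ c := fun x hx e => hx (e ▸ hcu)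
  refine Pool.Agent.Helper95.Cone.cone_hK (ρ := ρ)
    (adj := fun k => (Set.toFinite {H | AW A Q o u k H}).toFinset)
    F.at_ F.ru F.rQ F.uQ F.oA F.oQ hc hcu ?_ ?_ F.rhoo ?_ ?_ ?_ S hS
  · obtain ⟨d, hd, hdc⟩ : ∃ d ∈ A.filter (· ≤ u), d ≠ c :=
      Finset.exists_mem_ne (by have := F.U2; omega) c
    rw [Finset.mem_filter] at hd
    exact ⟨d, hd.1, hd.2, hdc⟩
  · exact F.tri
  · intro x hx hxQ
    obtain ⟨h1, h2, h3⟩ := F.rho x hx hxQ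
    exact ⟨h1, F.pl hx (F.off hxQ) h1 (F.off h2) h3⟩
  · rcases hNF c hc hcu with h | h | h
    · left
      unfold DegA at h
      push Not at h
      obtain ⟨y, hy, hyQ, hyu, z, hz, hzQ, hzu, hzy⟩ := h
      exact ⟨z, hz, y, hy, hzQ, hyQ, hzu, hyu, by rw [sup_comm]; exact hzy⟩
    · right
      left
      unfold DegA at h
      push Not at h
      obtain ⟨y, hy, hyQ, hyu, z, hz, hzQ, hzu, hzy⟩ := h
      by_cases h1 : y ≤ c ⊔ o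
      · refine ⟨z, hz, hzQ, hzu, fun h2 => hzy ?_⟩
        have hco : c ≠ o := fun e => F.off F.oQ (e ▸ hcu)
        have h3 : y ⊔ c = c ⊔ o := line_of (F.at_ y hy) (F.at_ c hc) (hne y hyu) h1 le_sup_left
          (rk_line (F.at_ c hc) (F.at_ o F.oA) hco)
        rw [h3]
        exact h2
      · exact ⟨y, hy, hyQ, hyu, h1⟩
    · right
      right
      intro x hx y hy hxQ _ hyx hyu
      rw [sup_comm]
      exact h x hx hxQ x hx le_sup_right (F.off hxQ) y hy hyx hyu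
  · intro x hx hxQ H h1 h2 h3 h4 h5
    rw [Set.Finite.mem_toFinset, Set.mem_ofPred_eq]
    refine ⟨⟨h1, h2, h3, fun ho q hq hqQ hqH => ?_⟩, h4⟩
    by_contra hqu
    exact h5 ⟨ho, q, hq, hqQ, hqu, hqH⟩

/-- **The planes**: all available rows of the colour `c` get different planes. -/
theorem exists_pi (F : FrW A Q o u ρ) (hNF : NF A Q o u) {c : L} (hc : c ∈ A) (hcu : c ≤ u) :
    ∃ π : L → L,
      (∀ x ∈ A, ¬ x ≤ Q → ¬ ρ (u ⊔ x) ≤ x ⊔ c → AW A Q o u (x ⊔ c) (π (x ⊔ c))) ∧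
      (∀ x ∈ A, ¬ x ≤ Q → ¬ ρ (u ⊔ x) ≤ x ⊔ c → ∀ y ∈ A, ¬ y ≤ Q → ¬ ρ (u ⊔ y) ≤ y ⊔ c →
        π (x ⊔ c) = π (y ⊔ c) → x ⊔ c = y ⊔ c) := by
  classical
  set K : Finset L := (A.filter (fun x => ¬ x ≤ Q ∧ ¬ ρ (u ⊔ x) ≤ x ⊔ c)).image (fun x => x ⊔ c)
    with hK
  have hmK : ∀ x ∈ A, ¬ x ≤ Q → ¬ ρ (u ⊔ x) ≤ x ⊔ c → x ⊔ c ∈ K := by
    intro x h1 h2 h3
    exact Finset.mem_image.mpr ⟨x, Finset.mem_filter.mpr ⟨h1, h2, h3⟩, rfl⟩
  have hKm : ∀ k ∈ K, ∃ x ∈ A, ¬ x ≤ Q ∧ ¬ ρ (u ⊔ x) ≤ x ⊔ c ∧ k = x ⊔ c := by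
    intro k hk
    obtain ⟨x, hx, rfl⟩ := Finset.mem_image.mp hk
    obtain ⟨h1, h2, h3⟩ := Finset.mem_filter.mp hx
    exact ⟨x, h1, h2, h3, rfl⟩
  have hall : ∀ S : Finset {k // k ∈ K}, S.card ≤
      (S.biUnion (fun k => (Set.toFinite {H | AW A Q o u k.1 H}).toFinset)).card := by
    intro S
    have h1 := kerW F hNF hc hcu (S.map (Function.Embedding.subtype _)) (by
      intro k hk
      obtain ⟨k', -, rfl⟩ := Finset.mem_map.mp hk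
      exact hKm _ k'.2)
    rw [Finset.card_map] at h1
    refine h1.trans (le_of_eq ?_)
    congr 1
    ext H
    simp only [Finset.mem_biUnion, Finset.mem_map]
    constructor
    · rintro ⟨k, ⟨k', hk', rfl⟩, hH⟩
      exact ⟨k', hk', hH⟩
    · rintro ⟨k', hk', hH⟩
      exact ⟨k'.1, ⟨k', hk', rfl⟩, hH⟩
  obtain ⟨f, hf, hft⟩ := (Finset.all_card_le_biUnion_card_iff_exists_injective _).mp hall
  refine ⟨fun k => if h : k ∈ K then f ⟨k, h⟩ else k, ?_, ?_⟩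
  · intro x h1 h2 h3
    have h4 := hft ⟨x ⊔ c, hmK x h1 h2 h3⟩
    rw [Set.Finite.mem_toFinset, Set.mem_ofPred_eq] at h4
    simp only [hmK x h1 h2 h3, dite_true]
    exact h4
  · intro x h1 h2 h3 y k1 k2 k3 e
    simp only [hmK x h1 h2 h3, hmK y k1 k2 k3, dite_true] at e
    exact congrArg Subtype.val (hf e)

/-- **Rank four from a choice of a colour and a second line for every user.** -/
theorem crit4_of_sel (F : FrW A Q o u ρ) {cc gg Hf : L → L}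
    (h : ∀ x ∈ A, ¬ x ≤ Q → x ≠ o → ρ (u ⊔ x) ≠ x → cc x ∈ A ∧ cc x ≤ u ∧
      ¬ ρ (u ⊔ x) ≤ x ⊔ cc x ∧ ADC A Q o u (x ⊔ cc x) (Hf x) ∧ gg x ∈ A ∧ gg x ≤ Hf x ∧
      ¬ gg x ≤ x ⊔ cc x)
    (hne : ∀ x ∈ A, ¬ x ≤ Q → x ≠ o → ρ (u ⊔ x) ≠ x → ∀ y ∈ A, ¬ y ≤ Q → y ≠ o →
      ρ (u ⊔ y) ≠ y → x ≠ y → x ⊔ cc x ≠ y ⊔ cc y ∧ x ⊔ gg x ≠ y ⊔ gg y)
    (hpl : ∀ x ∈ A, ¬ x ≤ Q → x ≠ o → ρ (u ⊔ x) ≠ x → ∀ y ∈ A, ¬ y ≤ Q → y ≠ o →
      ρ (u ⊔ y) ≠ y → cc x = cc y → Hf x = Hf y → x ⊔ cc x = y ⊔ cc y) : Crit4 A := by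
  classical
  obtain ⟨b1, hb1', b2, hb2', hb12⟩ := Finset.one_lt_card.mp (show 1 < (A.filter (· ≤ u)).card from
    by have := F.U2; omega)
  obtain ⟨hb1, hbu1⟩ := Finset.mem_filter.mp hb1'
  obtain ⟨hb2, hbu2⟩ := Finset.mem_filter.mp hb2'
  refine Pool.Agent.Helper83.RC.crit4_of_coneW (A := A) (Q := Q) (o := o) (u := u)
    (Rp := fun x => ρ (u ⊔ x) = x) (cc := cc) (gg := gg) (H := Hf)
    (e1 := fun _ => b1) (e2 := fun _ => b2) F.at_ F.rQ F.oA F.oQ F.ru F.uQ ?_ ?_ ?_ ?_ ?_ ?_ ?_ ?_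
    ?_ ?_ ?_
  · intro B hB
    obtain ⟨a, ha, haQ, hau⟩ := F.tri
    refine Pool.Agent.Helper63.HM.crit3_plane F.at_
      ⟨b1, hb1, b2, hb2, a, ha, hbu1.trans F.uQ, hbu2.trans F.uQ, haQ, ?_⟩ F.rQ B hB
    have h1 : b1 ⊔ b2 = u := line_of (F.at_ b1 hb1) (F.at_ b2 hb2) hb12 hbu1 hbu2 F.ru
    rw [h1, rk_sup_atom (F.at_ a ha) hau, F.ru]
  · intro x hx hxQ hxo hR ho
    have h5 := F.pl hx (F.off hxQ) F.oA (F.off F.oQ) (by rw [sup_comm]; exact ho)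
    rw [← h5, F.rhoo] at hR
    exact hxo hR.symm
  · intro x _ _ _ _
    exact ⟨hb1, hbu1, hb2, hbu2, hb12⟩
  · intro x _ _ _ hx y _ _ _ hy e
    rw [sup_comm, sup_comm y u] at e
    rw [← hx, e, hy]
  · intro x hx hxQ hxo hxr y hy hyQ hyo hyr
    have key : ¬ x ≤ y ⊔ cc y := by
      intro h1
      obtain ⟨-, h3, h4, -⟩ := h y hy hyQ hyo hyr
      have h5 : x ≤ u ⊔ y := h1.trans (sup_le le_sup_right (h3.trans le_sup_left))
      have h6 := F.pl hy (F.off hyQ) hx (F.off hxQ) h5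
      rw [← h6, hxr] at h4
      exact h4 h1
    exact ⟨fun e => key (by rw [e]; exact le_sup_left), fun e => key (by rw [e]; exact le_sup_left)⟩
  · intro x hx hxQ hxo hxr
    obtain ⟨h1, h2, -⟩ := h x hx hxQ hxo hxr
    exact ⟨h1, h2⟩
  · intro x hx hxQ hxo hxr y hy hyQ hyo hyr e
    by_contra hxy
    exact (hne x hx hxQ hxo hxr y hy hyQ hyo hyr hxy).1 e
  · intro x hx hxQ hxo hxr
    obtain ⟨h1, h2, h3, h4, -⟩ := h x hx hxQ hxo hxr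
    refine ⟨h4.1, h4.2.1, h4.2.2.1, ?_, h4.2.2.2⟩
    intro h5
    have h6 : o ≤ u ⊔ x := h5.trans (sup_le le_sup_right (h2.trans le_sup_left))
    have h7 := F.pl hx (F.off hxQ) F.oA (F.off F.oQ) h6
    rw [← h7, F.rhoo] at h3
    exact h3 h5
  · intro x hx hxQ hxo hxr y hy hyQ hyo hyr e1 e2
    by_contra hxy
    exact (hne x hx hxQ hxo hxr y hy hyQ hyo hyr hxy).1
      (hpl x hx hxQ hxo hxr y hy hyQ hyo hyr e1 e2)
  · intro x hx hxQ hxo hxr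
    obtain ⟨-, -, -, -, h5⟩ := h x hx hxQ hxo hxr
    exact h5
  · intro x hx hxQ hxo hxr y hy hyQ hyo hyr e
    by_contra hxy
    exact (hne x hx hxQ hxo hxr y hy hyQ hyo hyr hxy).2 e

/-- The users: the points off `Q`, not `o`, not a representative. -/
def Us (A : Finset L) (Q o u : L) (ρ : L → L) : Finset L :=
  A.filter (fun x => ¬ x ≤ Q ∧ x ≠ o ∧ ρ (u ⊔ x) ≠ x)

theorem mem_Us {x : L} : x ∈ Us A Q o u ρ ↔ x ∈ A ∧ ¬ x ≤ Q ∧ x ≠ o ∧ ρ (u ⊔ x) ≠ x := by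
  simp only [Us, Finset.mem_filter]

/-- **Rank four from the rainbow theorem.**  `G x` is a set of available colours of the user `x`,
`π c k` the plane of the row `k` of colour `c`, `W (x, c) g` the weight of the vertex `(x, c, g)`. -/
theorem crit4_of_rainbow (F : FrW A Q o u ρ) {G : L → Finset L} {π : L → L → L}
    {W : L × L → L → ℝ}
    (hG : ∀ x ∈ Us A Q o u ρ, ∀ c ∈ G x, c ∈ A ∧ c ≤ u ∧ ¬ ρ (u ⊔ x) ≤ x ⊔ c)
    (hπ : ∀ c ∈ A, c ≤ u → ∀ x ∈ A, ¬ x ≤ Q → ¬ ρ (u ⊔ x) ≤ x ⊔ c →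
      ADC A Q o u (x ⊔ c) (π c (x ⊔ c)))
    (hπi : ∀ c ∈ A, c ≤ u → ∀ x ∈ A, ¬ x ≤ Q → ¬ ρ (u ⊔ x) ≤ x ⊔ c →
      ∀ y ∈ A, ¬ y ≤ Q → ¬ ρ (u ⊔ y) ≤ y ⊔ c → π c (x ⊔ c) = π c (y ⊔ c) → x ⊔ c = y ⊔ c)
    (hW0 : ∀ x ∈ Us A Q o u ρ, ∀ c ∈ G x, ∀ g ∈ pen A x (x ⊔ c) (π c (x ⊔ c)), 0 ≤ W (x, c) g)
    (hload : ∀ x ∈ Us A Q o u ρ, ∀ c ∈ G x, ∀ g ∈ pen A x (x ⊔ c) (π c (x ⊔ c)),
      ∑ p ∈ ((Us A Q o u ρ) ×ˢ A).filter (fun p => p.2 ∈ G p.1 ∧ p.1 ⊔ p.2 = x ⊔ c),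
        ∑ g' ∈ pen A p.1 (p.1 ⊔ p.2) (π p.2 (p.1 ⊔ p.2)), W p g' +
      ∑ p ∈ ((Us A Q o u ρ) ×ˢ A).filter (fun p => p.2 ∈ G p.1 ∧
        g ∈ pen A p.1 (p.1 ⊔ p.2) (π p.2 (p.1 ⊔ p.2))), W p g ≤ 1)
    (hone : ∀ x ∈ Us A Q o u ρ, 1 ≤ ∑ c ∈ G x, ∑ g ∈ pen A x (x ⊔ c) (π c (x ⊔ c)), W (x, c) g) :
    Crit4 A := by
  classical
  by_cases hUs : (Us A Q o u ρ).Nonempty
  swap
  · have hno : ∀ x ∈ A, ¬ x ≤ Q → x ≠ o → ρ (u ⊔ x) ≠ x → False := by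
      intro x h1 h2 h3 h4
      exact hUs ⟨x, mem_Us.mpr ⟨h1, h2, h3, h4⟩⟩
    refine crit4_of_sel F (cc := id) (gg := id) (Hf := id) ?_ ?_ ?_
    · intro x h1 h2 h3 h4
      exact absurd (hno x h1 h2 h3 h4) not_false
    · intro x h1 h2 h3 h4
      exact absurd (hno x h1 h2 h3 h4) not_false
    · intro x h1 h2 h3 h4
      exact absurd (hno x h1 h2 h3 h4) not_false
  set U := Us A Q o u ρ with hU
  set S : Finset (L × L) := (U ×ˢ A).filter (fun p => p.2 ∈ G p.1) with hS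
  set P : L × L → Finset L := fun p => pen A p.1 (p.1 ⊔ p.2) (π p.2 (p.1 ⊔ p.2)) with hP
  have hmS : ∀ p, p ∈ S ↔ p.1 ∈ U ∧ p.2 ∈ G p.1 := by
    intro p
    rw [hS, Finset.mem_filter, Finset.mem_product]
    constructor
    · rintro ⟨⟨h1, -⟩, h2⟩
      exact ⟨h1, h2⟩
    · rintro ⟨h1, h2⟩
      exact ⟨⟨h1, (hG _ h1 _ h2).1⟩, h2⟩
  have sum_T : ∀ (q : (Σ _ : L × L, L) → Prop) [DecidablePred q],
      ∑ t ∈ (S.sigma P).filter q, W t.1 t.2 = ∑ p ∈ S, ∑ g ∈ P p, if q ⟨p, g⟩ then W p g else 0 := by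
    intro q _
    rw [Finset.sum_filter, Finset.sum_sigma]
  have key := rainbow_fin (S.sigma P) U (fun t => t.1.1) (fun t => t.1.1 ⊔ t.1.2)
    (fun t => t.2) (fun t => W t.1 t.2) hUs ?_ ?_ ?_ ?_
  · obtain ⟨f, hf1, hf2⟩ := key
    -- the choice
    have hfx : ∀ x ∈ U, (f x).1.1 = x ∧ (f x).1.2 ∈ G x ∧
        (f x).2 ∈ pen A x (x ⊔ (f x).1.2) (π (f x).1.2 (x ⊔ (f x).1.2)) := by
      intro x hx
      obtain ⟨h1, h2⟩ := hf1 x hx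
      obtain ⟨h3, h4⟩ := Finset.mem_sigma.mp h1
      have h5 := ((hmS _).mp h3).2
      have h2' : (f x).1.1 = x := h2
      rw [h2'] at h5
      have h4' : (f x).2 ∈ pen A (f x).1.1 ((f x).1.1 ⊔ (f x).1.2)
        (π (f x).1.2 ((f x).1.1 ⊔ (f x).1.2)) := h4
      rw [h2'] at h4'
      exact ⟨h2', h5, h4'⟩
    have hz : ∀ x, ∃ z, x ∈ U → z ∈ A ∧ z ≤ π (f x).1.2 (x ⊔ (f x).1.2) ∧
        ¬ z ≤ x ⊔ (f x).1.2 ∧ x ⊔ z = (f x).2 := by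
      intro x
      by_cases hx : x ∈ U
      · obtain ⟨z, h1, h2, h3, h4⟩ := mem_pen.mp (hfx x hx).2.2
        exact ⟨z, fun _ => ⟨h1, h2, h3, h4⟩⟩
      · exact ⟨x, fun h => absurd h hx⟩
    choose z hz using hz
    refine crit4_of_sel F (cc := fun x => (f x).1.2) (gg := z)
      (Hf := fun x => π (f x).1.2 (x ⊔ (f x).1.2)) ?_ ?_ ?_
    · intro x h1 h2 h3 h4
      have hx : x ∈ U := mem_Us.mpr ⟨h1, h2, h3, h4⟩
      obtain ⟨-, k2, -⟩ := hfx x hx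
      obtain ⟨l1, l2, l3⟩ := hG x hx _ k2
      obtain ⟨m1, m2, m3, -⟩ := hz x hx
      exact ⟨l1, l2, l3, hπ _ l1 l2 x h1 h2 l3, m1, m2, m3⟩
    · intro x h1 h2 h3 h4 y k1 k2 k3 k4 hxy
      have hx : x ∈ U := mem_Us.mpr ⟨h1, h2, h3, h4⟩
      have hy : y ∈ U := mem_Us.mpr ⟨k1, k2, k3, k4⟩
      obtain ⟨l1, l2⟩ := hf2 x hx y hy hxy
      have e1 := (hfx x hx).1
      have e2 := (hfx y hy).1
      have l1' : (f x).1.1 ⊔ (f x).1.2 ≠ (f y).1.1 ⊔ (f y).1.2 := l1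
      rw [e1, e2] at l1'
      refine ⟨l1', ?_⟩
      rw [(hz x hx).2.2.2, (hz y hy).2.2.2]
      exact l2
    · intro x h1 h2 h3 h4 y k1 k2 k3 k4 e1 e2
      have hx : x ∈ U := mem_Us.mpr ⟨h1, h2, h3, h4⟩
      have hy : y ∈ U := mem_Us.mpr ⟨k1, k2, k3, k4⟩
      obtain ⟨-, l2, -⟩ := hfx x hx
      obtain ⟨-, m2, -⟩ := hfx y hy
      obtain ⟨n1, n2, n3⟩ := hG x hx _ l2
      obtain ⟨-, -, o3⟩ := hG y hy _ m2
      have e1' : (f x).1.2 = (f y).1.2 := e1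
      have e2' : π (f x).1.2 (x ⊔ (f x).1.2) = π (f y).1.2 (y ⊔ (f y).1.2) := e2
      rw [← e1'] at o3 e2'
      have h5 := hπi _ n1 n2 x h1 h2 n3 y k1 k2 o3 e2'
      show x ⊔ (f x).1.2 = y ⊔ (f y).1.2
      rw [← e1']
      exact h5
  · -- nonnegativity
    intro t ht
    obtain ⟨h1, h2⟩ := Finset.mem_sigma.mp ht
    obtain ⟨h3, h4⟩ := (hmS _).mp h1
    exact hW0 _ h3 _ h4 _ h2
  · intro t ht
    exact ((hmS _).mp (Finset.mem_sigma.mp ht).1).1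
  · -- loads
    intro t ht
    obtain ⟨h1, h2⟩ := Finset.mem_sigma.mp ht
    obtain ⟨h3, h4⟩ := (hmS _).mp h1
    have h5 := hload _ h3 _ h4 _ h2
    refine le_trans (le_of_eq ?_) h5
    rw [sum_T (fun s => s.1.1 ⊔ s.1.2 = t.1.1 ⊔ t.1.2), sum_T (fun s => s.2 = t.2)]
    congr 1
    · have e1 : ((U ×ˢ A).filter (fun p => p.2 ∈ G p.1 ∧ p.1 ⊔ p.2 = t.1.1 ⊔ t.1.2)) =
          S.filter (fun p => p.1 ⊔ p.2 = t.1.1 ⊔ t.1.2) := by
        rw [hS, Finset.filter_filter]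
      rw [e1, Finset.sum_filter (fun p : L × L => p.1 ⊔ p.2 = t.1.1 ⊔ t.1.2)]
      refine Finset.sum_congr rfl (fun p _ => ?_)
      by_cases hp : p.1 ⊔ p.2 = t.1.1 ⊔ t.1.2
      · simp [hp, hP]
      · simp [hp]
    · have e1 : ((U ×ˢ A).filter (fun p => p.2 ∈ G p.1 ∧
          t.2 ∈ pen A p.1 (p.1 ⊔ p.2) (π p.2 (p.1 ⊔ p.2)))) =
          S.filter (fun p => t.2 ∈ P p) := by
        rw [hS, Finset.filter_filter]
      rw [e1, Finset.sum_filter (fun p : L × L => t.2 ∈ P p)]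
      refine Finset.sum_congr rfl (fun p _ => ?_)
      show (∑ g ∈ P p, if g = t.2 then W p g else 0) = _
      rw [Finset.sum_ite_eq']
  · -- classes
    intro x hx
    rw [sum_T (fun s => s.1.1 = x)]
    refine (hone x hx).trans (le_of_eq ?_)
    have e1 : ∑ c ∈ G x, ∑ g ∈ pen A x (x ⊔ c) (π c (x ⊔ c)), W (x, c) g =
        ∑ p ∈ S.filter (fun p => p.1 = x), ∑ g ∈ P p, W p g := by
      refine Finset.sum_bij (fun c _ => (x, c)) ?_ ?_ ?_ ?_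
      · intro c hc
        exact Finset.mem_filter.mpr ⟨(hmS _).mpr ⟨hx, hc⟩, rfl⟩
      · intro c _ c' _ h
        exact (Prod.mk.inj h).2
      · rintro ⟨y, c⟩ hp
        obtain ⟨h1, h2⟩ := Finset.mem_filter.mp hp
        have h2' : y = x := h2
        subst h2'
        exact ⟨c, ((hmS _).mp h1).2, rfl⟩
      · intro c _
        rfl
    rw [e1, Finset.sum_filter]
    refine Finset.sum_congr rfl (fun p _ => ?_)
    by_cases hp : p.1 = x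
    · simp [hp]
    · simp [hp]

end

end Pool.Agent.Helper74.RC.RB
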