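import Pool.Agent.Helper63.HM.Hall

/-!
# Rainbow matchings with three resources, on finite sets of pairs of lines

Every `x` in `X` has a nonempty finite set `V x` of pairs `p` of elements of a lattice; the
resources of `p` are `p.1`, `p.2` and `p.1 ⊔ p.2`.
-/

set_option autoImplicit false
set_option linter.unusedSectionVars false

namespace Pool.Agent.Helper74.RC.RB

open Finset

variable {L : Type} [Lattice L] [Finite L] [DecidableEq L]

/-- `q` is a resource of `p`. -/
def Use3 (p : L × L) (q : L) : Prop := p.1 = q ∨ p.2 = q ∨ p.1 ⊔ p.2 = q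

open Classical in
/-- The load of `q`, if every `x` spreads the weight one uniformly over `V x`. -/
noncomputable def load3 (X : Finset L) (V : L → Finset (L × L)) (q : L) : ℝ :=
  ∑ y ∈ X, (((V y).filter (fun p => Use3 p q)).card : ℝ) / (V y).card

/-- The vertices. -/
abbrev T3 (X : Finset L) (V : L → Finset (L × L)) : Type :=
  Σ x : {x // x ∈ X}, {p // p ∈ V x.1}

open Classical in
theorem rainbow_fin3 (X : Finset L) (V : L → Finset (L × L)) (hV : ∀ x ∈ X, (V x).Nonempty)
    (hload : ∀ x ∈ X, ∀ p ∈ V x,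
      load3 X V p.1 + load3 X V p.2 + load3 X V (p.1 ⊔ p.2) ≤ 1) :
    ∃ f : L → L × L, (∀ x ∈ X, f x ∈ V x) ∧
      ∀ x ∈ X, ∀ y ∈ X, x ≠ y → ∀ q, Use3 (f x) q → ¬ Use3 (f y) q := by
  classical
  have hl0 : ∀ q, 0 ≤ load3 X V q := fun q => by
    unfold load3
    positivity
  let Use : T3 X V → L → Prop := fun v q => Use3 v.2.1 q
  let w : T3 X V → ℝ := fun v => 1 / ((V v.1.1).card : ℝ)
  have hloadq : ∀ q : L, ∑ᶠ u ∈ {u : T3 X V | Use u q}, w u = load3 X V q := by
    intro q
    rw [finsum_mem_def, finsum_eq_sum_of_fintype]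
    have h1 : ∑ u : T3 X V, Set.indicator {u : T3 X V | Use u q} w u =
        ∑ x : {x // x ∈ X}, ∑ p : {p // p ∈ V x.1},
          if Use3 p.1 q then 1 / ((V x.1).card : ℝ) else 0 := by
      rw [Fintype.sum_sigma]
      refine Finset.sum_congr rfl (fun x _ => Finset.sum_congr rfl (fun p _ => ?_))
      rw [Set.indicator_apply]
      rfl
    rw [h1]
    have h2 : ∀ x : {x // x ∈ X}, ∑ p : {p // p ∈ V x.1},
          (if Use3 p.1 q then 1 / ((V x.1).card : ℝ) else 0) =
          (((V x.1).filter (fun p => Use3 p q)).card : ℝ) / (V x.1).card := by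
      intro x
      rw [Finset.sum_coe_sort (V x.1) (fun p => if Use3 p q then 1 / ((V x.1).card : ℝ) else 0),
        ← Finset.sum_filter, Finset.sum_const, nsmul_eq_mul, mul_one_div]
    rw [Finset.sum_congr rfl (fun x _ => h2 x)]
    exact Finset.sum_coe_sort X
      (fun x => (((V x).filter (fun p => Use3 p q)).card : ℝ) / (V x).card)
  obtain ⟨g, hg1, -, hg3⟩ := Pool.Agent.Helper63.HM.rainbow (V := T3 X V) (Q := L)
    (X := {x // x ∈ X}) Use (fun v => v.1) w (fun v => by positivity)
    (by
      intro v _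
      have h3 : {q : L | Use v q} = ((({v.2.1.1, v.2.1.2, v.2.1.1 ⊔ v.2.1.2} : Finset L)) :
          Set L) := by
        ext q
        simp only [Use, Use3, Set.mem_ofPred_eq, Finset.coe_insert, Finset.coe_singleton,
          Set.mem_insert_iff, Set.mem_singleton_iff]
        constructor
        · rintro (h | h | h)
          · exact Or.inl h.symm
          · exact Or.inr (Or.inl h.symm)
          · exact Or.inr (Or.inr h.symm)
        · rintro (h | h | h)
          · exact Or.inl h.symm
          · exact Or.inr (Or.inl h.symm)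
          · exact Or.inr (Or.inr h.symm)
      rw [h3, finsum_mem_coe_finset]
      rw [Finset.sum_congr rfl (fun q _ => hloadq q)]
      have h4 := hload v.1.1 v.1.2 v.2.1 v.2.2
      have h5 : ∀ (a b c : L), ∑ q ∈ ({a, b, c} : Finset L), load3 X V q ≤
          load3 X V a + load3 X V b + load3 X V c := by
        intro a b c
        have h6 : ∀ (d : L) (s : Finset L), ∑ q ∈ insert d s, load3 X V q ≤
            load3 X V d + ∑ q ∈ s, load3 X V q := by
          intro d s
          by_cases hd : d ∈ s
          · rw [Finset.insert_eq_of_mem hd]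
            linarith [hl0 d]
          · rw [Finset.sum_insert hd]
        have h7 := h6 a {b, c}
        have h8 := h6 b {c}
        rw [Finset.sum_singleton] at h8
        linarith
      exact (h5 _ _ _).trans h4)
    (by
      intro x
      have h4 : {v : T3 X V | v.1 = x} = Set.range (fun p : {p // p ∈ V x.1} => (⟨x, p⟩ : T3 X V)) := by
        ext v
        constructor
        · intro h
          have h' : v.1 = x := h
          subst h'
          exact ⟨v.2, rfl⟩
        · rintro ⟨a, rfl⟩
          rfl
      change 1 ≤ ∑ᶠ v ∈ {v : T3 X V | v.1 = x}, w v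
      rw [h4, finsum_mem_range (fun a b h => by
        have := Sigma.mk.inj_iff.mp h
        exact eq_of_heq this.2), finsum_eq_sum_of_fintype]
      have h5 : ∀ p : {p // p ∈ V x.1}, w (⟨x, p⟩ : T3 X V) = 1 / ((V x.1).card : ℝ) := fun _ => rfl
      rw [Finset.sum_congr rfl (fun p _ => h5 p), Finset.sum_const, nsmul_eq_mul,
        Finset.card_univ, Fintype.card_coe, mul_one_div]
      have h6 : (0 : ℝ) < (V x.1).card := by
        exact_mod_cast Finset.card_pos.mpr (hV x.1 x.2)
      rw [div_self h6.ne'])
  refine ⟨fun x => if h : x ∈ X then (g ⟨x, h⟩).2.1 else (x, x), ?_, ?_⟩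
  · intro x hx
    simp only [dif_pos hx]
    have h1 : (g ⟨x, hx⟩).1.1 = x := congrArg Subtype.val (hg1 ⟨x, hx⟩)
    have h2 : ∀ z : T3 X V, z.1.1 = x → z.2.1 ∈ V x := by
      rintro ⟨⟨a, ha⟩, p⟩ rfl
      exact p.2
    exact h2 _ h1
  · intro x hx y hy hxy q h1 h2
    simp only [dif_pos hx] at h1
    simp only [dif_pos hy] at h2
    have hne : (⟨x, hx⟩ : {x // x ∈ X}) ≠ ⟨y, hy⟩ := fun h => hxy (congrArg Subtype.val h)
    exact hg3 _ _ hne q ⟨h1, h2⟩

end Pool.Agent.Helper74.RC.RB
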