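import Pool.Agent.Helper63.HM.Hall

/-!
# Rainbow matchings with two resources, on finite sets

`T` is a finite set of vertices; every vertex has a class `col`, a row and a line.  If every class
has weight at least one and the weight on the row plus the weight on the line of every vertex is at
most one, then there is a choice of one vertex for every class with different rows and different
lines.
-/

set_option autoImplicit false
set_option linter.unusedSectionVars false

namespace Pool.Agent.Helper74.RC.RB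

open Finset

theorem fsum_sub {α : Type} [DecidableEq α] (T : Finset α) (p : α → Prop) [DecidablePred p]
    (w : α → ℝ) :
    ∑ᶠ v ∈ {v : {t // t ∈ T} | p v.1}, w v.1 = ∑ t ∈ T.filter p, w t := by
  classical
  have h1 : {v : {t // t ∈ T} | p v.1} = ((T.attach.filter (fun v => p v.1) : Finset _) :
      Set {t // t ∈ T}) := by
    ext v
    simp
  rw [h1, finsum_mem_coe_finset, Finset.sum_filter, Finset.sum_filter]
  exact Finset.sum_attach T (fun t => if p t then w t else 0)

theorem rainbow_fin {α X β γ : Type} [DecidableEq α] [DecidableEq X] [DecidableEq β]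
    [DecidableEq γ] [Finite β] [Finite γ] (T : Finset α) (U : Finset X) (col : α → X)
    (row : α → β) (line : α → γ) (w : α → ℝ) (hU : U.Nonempty) (hw0 : ∀ t ∈ T, 0 ≤ w t)
    (hcol : ∀ t ∈ T, col t ∈ U)
    (hload : ∀ t ∈ T, ∑ s ∈ T.filter (fun s => row s = row t), w s +
      ∑ s ∈ T.filter (fun s => line s = line t), w s ≤ 1)
    (hx : ∀ x ∈ U, 1 ≤ ∑ t ∈ T.filter (fun t => col t = x), w t) :
    ∃ f : X → α, (∀ x ∈ U, f x ∈ T ∧ col (f x) = x) ∧
      ∀ x ∈ U, ∀ y ∈ U, x ≠ y → row (f x) ≠ row (f y) ∧ line (f x) ≠ line (f y) := by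
  classical
  have key := Pool.Agent.Helper63.HM.rainbow (V := {t // t ∈ T}) (Q := β ⊕ γ)
    (X := {x // x ∈ U})
    (fun v q => q = Sum.inl (row v.1) ∨ q = Sum.inr (line v.1))
    (fun v => ⟨col v.1, hcol v.1 v.2⟩) (fun v => w v.1) (fun v => hw0 v.1 v.2) ?_ ?_
  · obtain ⟨f, hf1, -, hf2⟩ := key
    obtain ⟨x0, hx0⟩ := hU
    refine ⟨fun x => if h : x ∈ U then (f ⟨x, h⟩).1 else (f ⟨x0, hx0⟩).1, ?_, ?_⟩
    · intro x hx
      simp only [dif_pos hx]
      exact ⟨(f ⟨x, hx⟩).2, congrArg Subtype.val (hf1 ⟨x, hx⟩)⟩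
    · intro x hx y hy hxy
      simp only [dif_pos hx, dif_pos hy]
      have hne : (⟨x, hx⟩ : {x // x ∈ U}) ≠ ⟨y, hy⟩ := fun h => hxy (congrArg Subtype.val h)
      constructor
      · intro h
        exact hf2 _ _ hne (Sum.inl (row (f ⟨x, hx⟩).1)) ⟨Or.inl rfl, Or.inl (by rw [h])⟩
      · intro h
        exact hf2 _ _ hne (Sum.inr (line (f ⟨x, hx⟩).1)) ⟨Or.inr rfl, Or.inr (by rw [h])⟩
  · intro v _
    have h1 : {q : β ⊕ γ | q = Sum.inl (row v.1) ∨ q = Sum.inr (line v.1)} =
        {Sum.inl (row v.1), Sum.inr (line v.1)} := by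
      ext q
      simp
    rw [h1, finsum_mem_pair (by simp)]
    have h2 : {u : {t // t ∈ T} | (Sum.inl (row v.1) : β ⊕ γ) = Sum.inl (row u.1) ∨
        (Sum.inl (row v.1) : β ⊕ γ) = Sum.inr (line u.1)} =
        {u : {t // t ∈ T} | row u.1 = row v.1} := by
      ext u
      simp [eq_comm]
    have h3 : {u : {t // t ∈ T} | (Sum.inr (line v.1) : β ⊕ γ) = Sum.inl (row u.1) ∨
        (Sum.inr (line v.1) : β ⊕ γ) = Sum.inr (line u.1)} =
        {u : {t // t ∈ T} | line u.1 = line v.1} := by
      ext u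
      simp [eq_comm]
    rw [h2, h3, fsum_sub T (fun t => row t = row v.1) w,
      fsum_sub T (fun t => line t = line v.1) w]
    exact hload v.1 v.2
  · intro x
    have h1 : {v : {t // t ∈ T} | (⟨col v.1, hcol v.1 v.2⟩ : {x // x ∈ U}) = x} =
        {v : {t // t ∈ T} | col v.1 = x.1} := by
      ext v
      simp [Subtype.ext_iff]
    rw [h1, fsum_sub T (fun t => col t = x.1) w]
    exact hx x.1 x.2

end Pool.Agent.Helper74.RC.RB
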