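import Pool.Agent.Helper74.RC.WRows
import Pool.Agent.Helper50.VT.Vm
import Pool.Agent.Helper80.BP.SQH

/-!
# MP_47cd0b (room C): weighted rows and planes with many rows, in terms of heights and sets
-/

set_option autoImplicit false
set_option linter.unusedSectionVars false

namespace Pool.Agent.Helper74.RC.RB

open Pool.Agent.Helper28.BPack Pool.Agent.Helper61.Motz Pool.Agent.Helper38.Thick
  Pool.Agent.Helper38.SC Pool.Agent.Helper56.BP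

variable {L : Type} [Lattice L] [BoundedOrder L] [Finite L] [IsUpperModularLattice L]

/-- A sum over a set given by a condition. -/
theorem fsum_filter [DecidableEq L] (A : Finset L) (q : L → Prop) [DecidablePred q] (f : L → ℝ) :
    ∑ᶠ c ∈ {c ∈ (A : Set L) | q c}, f c = ∑ c ∈ A.filter q, f c := by
  have h2 : {a ∈ (A : Set L) | q a} = ((A.filter q : Finset L) : Set L) := by
    ext a
    simp
  rw [h2, finsum_mem_coe_finset]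

theorem ncard_filter [DecidableEq L] (A : Finset L) (q : L → Prop) [DecidablePred q] :
    {c ∈ (A : Set L) | q c}.ncard = (A.filter q).card := by
  have h2 : {a ∈ (A : Set L) | q a} = ((A.filter q : Finset L) : Set L) := by
    ext a
    simp
  rw [h2, Set.ncard_coe_finset]

theorem ncard_pen [DecidableEq L] [DecidableRel (α := L) (· ≤ ·)] (A : Finset L) (x k H : L) :
    {g : L | ∃ z ∈ A, z ≤ H ∧ ¬ z ≤ k ∧ g = x ⊔ z}.ncard = (pen A x k H).card := by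
  have h1 : {g : L | ∃ z ∈ A, z ≤ H ∧ ¬ z ≤ k ∧ g = x ⊔ z} = ((pen A x k H : Finset L) : Set L) := by
    ext g
    simp only [Set.mem_ofPred_eq, Finset.mem_coe, mem_pen]
    constructor
    · rintro ⟨z, h1, h2, h3, h4⟩
      exact ⟨z, h1, h2, h3, h4.symm⟩
    · rintro ⟨z, h1, h2, h3, h4⟩
      exact ⟨z, h1, h2, h3, h4.symm⟩
  rw [h1, Set.ncard_coe_finset]

/-- **(T) in terms of heights.** -/
theorem crit4_T_height {A : Finset L} (hA : ∀ a ∈ A, IsAtom a) (hrA : rk (A.sup id) = 4)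
    {u Q : L} (hu : Order.height u = 2) (hQ : Order.height Q = 3) (huQ : u ≤ Q)
    (hU : 2 ≤ {a ∈ (A : Set L) | a ≤ u}.ncard) (hQA : ∃ z ∈ A, z ≤ Q ∧ ¬ z ≤ u)
    (hcore : ∀ p ∈ A, ∀ a ∈ A, ∀ b ∈ A, a ≠ b → ¬ p ≤ a ⊔ b →
      ∃ z ∈ A, z ≤ p ⊔ a ⊔ b ∧ z ≠ p ∧ ¬ z ≤ a ⊔ b)
    (h : ∃ w : L → L → ℝ, (∀ x c, 0 ≤ w x c) ∧
      (∀ x ∈ A, ¬ x ≤ Q → ∀ d ∈ A, d ≤ u →
        1 ≤ ∑ᶠ c ∈ {c ∈ (A : Set L) | c ≤ u ∧ c ≠ d}, w x c) ∧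
      ∀ x ∈ A, ¬ x ≤ Q → ∀ z ∈ A, z ≠ x → (∀ c ∈ A, c ≤ u → ¬ c ≤ x ⊔ z) →
        ∀ y : L → L, (∀ c ∈ A, c ≤ u → y c ∈ A ∧ y c ≤ x ⊔ z ∧ ¬ y c ≤ Q) → ∀ d ∈ A, d ≤ u →
        ∑ᶠ v ∈ {v ∈ (A : Set L) | v ≤ y d ⊔ d ∧ ¬ v ≤ Q}, w v d +
        ∑ᶠ c ∈ {c ∈ (A : Set L) | c ≤ u}, w (y c) c /
          {g : L | ∃ v ∈ A, v ≤ x ⊔ z ⊔ c ∧ ¬ v ≤ y c ⊔ c ∧ g = y c ⊔ v}.ncard ≤ 1) :
    Crit4 A := by
  classical
  obtain ⟨w, h0, h1, h2⟩ := h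
  rw [ncard_filter] at hU
  have hc0 : ∃ c ∈ A, c ≤ u := by
    obtain ⟨c, hc⟩ := Finset.card_pos.mp (show 0 < (A.filter (· ≤ u)).card by omega)
    exact ⟨c, (Finset.mem_filter.mp hc).1, (Finset.mem_filter.mp hc).2⟩
  refine crit4_T hA hrA hcore (Pool.Agent.Helper80.BP.SQ.rk_of_ht hu)
    (Pool.Agent.Helper80.BP.SQ.rk_of_ht hQ) huQ hc0 hQA w (fun x _ _ c _ _ => h0 x c) ?_ ?_
  · intro x hx hxQ d hd hdu
    have h3 := h1 x hx hxQ d hd hdu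
    rwa [fsum_filter] at h3
  · intro x hx hxQ z hz hzx hsk y hy d hd hdu
    have h3 := h2 x hx hxQ z hz hzx hsk y hy d hd hdu
    rw [fsum_filter, fsum_filter] at h3
    simp only [ncard_pen] at h3
    exact h3

/-- **(V) in terms of heights.** -/
theorem crit4_V_height {A : Finset L} (hA : ∀ a ∈ A, IsAtom a)
    {u Q : L} (hu : Order.height u = 2) (hQ : Order.height Q = 3) (huQ : u ≤ Q)
    (hU : 2 ≤ {a ∈ (A : Set L) | a ≤ u}.ncard)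
    (hQA : ∃ z ∈ A, z ≤ Q ∧ ¬ z ≤ u)
    (h : ∃ (P : L) (r m : L → L), Order.height P = 3 ∧ u ≤ P ∧ P ≠ Q ∧
      (∃ z ∈ A, z ≤ P ∧ ¬ z ≤ u) ∧
      (∀ x ∈ A, ¬ x ≤ Q → r (u ⊔ x) ∈ A ∧ ¬ r (u ⊔ x) ≤ u ∧ r (u ⊔ x) ≤ u ⊔ x) ∧
      (∀ x ∈ A, ¬ x ≤ Q → r (u ⊔ x) ≠ x → m x ∈ A ∧ m x ≤ u ∧ ¬ r (u ⊔ x) ≤ x ⊔ m x) ∧
      (∀ x ∈ A, ¬ x ≤ Q → r (u ⊔ x) ≠ x → ∀ y ∈ A, ¬ y ≤ Q → r (u ⊔ y) ≠ y →
        x ⊔ m x = y ⊔ m y → x = y) ∧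
      ∀ c ∈ A, c ≤ u →
        {G : L | ∃ x ∈ A, ¬ x ≤ P ∧ ¬ x ≤ Q ∧ r (u ⊔ x) ≠ x ∧ m x = c ∧ G = u ⊔ x}.ncard ≤
          {y ∈ (A : Set L) | y ≤ P ∧ ¬ y ≤ Q ∧ r P ≠ y ∧ m y = c}.ncard) : Crit4 A := by
  classical
  obtain ⟨P, r, m, h1, h2, h3, h4, h5, h6, h7, h8⟩ := h
  rw [ncard_filter] at hU
  refine Pool.Agent.Helper50.VT.crit4_Vm hA (Pool.Agent.Helper80.BP.SQ.rk_of_ht hu) hU
    (Pool.Agent.Helper80.BP.SQ.rk_of_ht h1) (Pool.Agent.Helper80.BP.SQ.rk_of_ht hQ) h2 huQ h3 h4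
    hQA r m h5 h6 h7 (fun c hc hcu => ?_)
  have k1 := h8 c hc hcu
  rw [ncard_filter A (fun y => y ≤ P ∧ ¬ y ≤ Q ∧ r P ≠ y ∧ m y = c)] at k1
  refine le_trans (le_of_eq ?_) k1
  rw [← Set.ncard_coe_finset]
  congr 1
  ext G
  simp only [Finset.coe_image, Finset.coe_filter, Set.mem_image, Set.mem_ofPred_eq]
  constructor
  · rintro ⟨x, ⟨k2, k3, k4, k5, k6⟩, rfl⟩
    exact ⟨x, k2, k3, k4, k5, k6, rfl⟩
  · rintro ⟨x, k2, k3, k4, k5, k6, rfl⟩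
    exact ⟨x, ⟨k2, k3, k4, k5, k6⟩, rfl⟩

end Pool.Agent.Helper74.RC.RB
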