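import Pool.Agent.Helper74.RC.Rainbow

/-!
# MP_47cd0b (room C): weighted rows

Every point `x` off `Q` has a weight `p x c` for every point `c` of `u`; the weight of the row
`x ⊔ c` and the weight of a line `g` (for every colour `c` at most one point of `g` is counted, in
the plane `g ⊔ c`) are together at most one.
-/

set_option autoImplicit false
set_option linter.unusedSectionVars false

namespace Pool.Agent.Helper74.RC.RB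

open Pool.Agent.Helper28.BPack Pool.Agent.Helper61.Motz Pool.Agent.Helper38.Thick
  Pool.Agent.Helper38.SC Pool.Agent.Helper56.BP

variable {L : Type} [Lattice L] [BoundedOrder L] [Finite L] [IsUpperModularLattice L]

section

variable [DecidableEq L] [DecidableRel (α := L) (· ≤ ·)] {A : Finset L} {Q o u : L} {ρ : L → L}

/-- The available colours. -/
def Av (A : Finset L) (u : L) (ρ : L → L) (x : L) : Finset L :=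
  A.filter (fun c => c ≤ u ∧ ¬ ρ (u ⊔ x) ≤ x ⊔ c)

theorem mem_Av {x c : L} : c ∈ Av A u ρ x ↔ c ∈ A ∧ c ≤ u ∧ ¬ ρ (u ⊔ x) ≤ x ⊔ c := by
  simp only [Av, Finset.mem_filter]

/-- Two different points of `u` with the same row. -/
theorem col_unique (F : FrW A Q o u ρ) {x c d : L} (hx : x ∈ A) (hxQ : ¬ x ≤ Q)
    (hc : c ∈ A) (hcu : c ≤ u) (hd : d ∈ A) (hdu : d ≤ u) (h : d ≤ x ⊔ c) : c = d := by
  by_contra hne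
  have hA := F.at_
  have hxu := F.off hxQ
  have e4 : c ⊔ d = x ⊔ c := line_of (hA c hc) (hA d hd) hne le_sup_right h
    (rk_line (hA x hx) (hA c hc) (fun e => hxu (e ▸ hcu)))
  have e5 : c ⊔ d = u := line_of (hA c hc) (hA d hd) hne hcu hdu F.ru
  exact hxu (by rw [← e5, e4]; exact le_sup_left)

/-- All colours but one are available. -/
theorem exists_d (F : FrW A Q o u ρ) {x : L} (hx : x ∈ Us A Q o u ρ) :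
    ∃ d ∈ A, d ≤ u ∧ ∀ c ∈ A, c ≤ u → c ≠ d → c ∈ Av A u ρ x := by
  classical
  obtain ⟨k1, k2, k3, k4⟩ := mem_Us.mp hx
  obtain ⟨l1, l2, -⟩ := F.rho x k1 k2
  have hxu := F.off k2
  have hA := F.at_
  by_cases h : ∃ d ∈ A, d ≤ u ∧ ρ (u ⊔ x) ≤ x ⊔ d
  · obtain ⟨d, hd, hdu, h1⟩ := h
    refine ⟨d, hd, hdu, fun c hc hcu hcd => mem_Av.mpr ⟨hc, hcu, fun h2 => hcd ?_⟩⟩
    have e1 : x ⊔ ρ (u ⊔ x) = x ⊔ d := line_of (hA x k1) (hA _ l1) (Ne.symm k4) le_sup_left h1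
      (rk_line (hA x k1) (hA d hd) (fun e => hxu (e ▸ hdu)))
    have e2 : x ⊔ ρ (u ⊔ x) = x ⊔ c := line_of (hA x k1) (hA _ l1) (Ne.symm k4) le_sup_left h2
      (rk_line (hA x k1) (hA c hc) (fun e => hxu (e ▸ hcu)))
    exact (col_unique F k1 k2 hd hdu hc hcu (by rw [← e1, e2]; exact le_sup_right)).symm
  · push Not at h
    obtain ⟨d, hd⟩ := Finset.card_pos.mp (show 0 < (A.filter (· ≤ u)).card from by
      have := F.U2; omega)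
    obtain ⟨hd1, hd2⟩ := Finset.mem_filter.mp hd
    exact ⟨d, hd1, hd2, fun c hc hcu _ => mem_Av.mpr ⟨hc, hcu, h c hc hcu⟩⟩

/-- The pairs (user, colour) of a row. -/
theorem row_load (F : FrW A Q o u ρ) {p : L → L → ℝ}
    (hp0 : ∀ x ∈ A, ¬ x ≤ Q → ∀ c ∈ A, c ≤ u → 0 ≤ p x c) {x c : L}
    (hx : x ∈ Us A Q o u ρ) (hc : c ∈ Av A u ρ x) :
    ∑ t ∈ ((Us A Q o u ρ) ×ˢ A).filter (fun t => t.2 ∈ Av A u ρ t.1 ∧ t.1 ⊔ t.2 = x ⊔ c),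
      p t.1 t.2 ≤ ∑ z ∈ A.filter (fun z => z ≤ x ⊔ c ∧ ¬ z ≤ Q), p z c := by
  classical
  obtain ⟨hxA, hxQ, -, -⟩ := mem_Us.mp hx
  obtain ⟨hcA, hcu, -⟩ := mem_Av.mp hc
  have hT : ∀ t ∈ ((Us A Q o u ρ) ×ˢ A).filter (fun t => t.2 ∈ Av A u ρ t.1 ∧
      t.1 ⊔ t.2 = x ⊔ c), t.2 = c ∧ t.1 ∈ A ∧ ¬ t.1 ≤ Q ∧ t.1 ≤ x ⊔ c := by
    intro t ht
    obtain ⟨h1, h2, h3⟩ := Finset.mem_filter.mp ht
    obtain ⟨l1, l2⟩ := Finset.mem_product.mp h1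
    obtain ⟨n1, n2, -, -⟩ := mem_Us.mp l1
    obtain ⟨-, h5, -⟩ := mem_Av.mp h2
    refine ⟨(col_unique F hxA hxQ hcA hcu l2 h5 ?_).symm, n1, n2, ?_⟩
    · rw [← h3]
      exact le_sup_right
    · rw [← h3]
      exact le_sup_left
  rw [Finset.sum_congr rfl (fun t ht => by rw [(hT t ht).1] : ∀ t ∈ ((Us A Q o u ρ) ×ˢ A).filter
    (fun t => t.2 ∈ Av A u ρ t.1 ∧ t.1 ⊔ t.2 = x ⊔ c), p t.1 t.2 = p t.1 c)]
  rw [← Finset.sum_image (f := fun z => p z c) (g := Prod.fst)]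
  · refine Finset.sum_le_sum_of_subset_of_nonneg ?_ ?_
    · intro z hz
      obtain ⟨t, ht, rfl⟩ := Finset.mem_image.mp hz
      obtain ⟨-, h1, h2, h3⟩ := hT t ht
      exact Finset.mem_filter.mpr ⟨h1, h3, h2⟩
    · intro z hz _
      obtain ⟨h1, -, h2⟩ := Finset.mem_filter.mp hz
      exact hp0 z h1 h2 c hcA hcu
  · intro t ht t' ht' e
    exact Prod.ext e ((hT t (Finset.mem_coe.mp ht)).1.trans (hT t' (Finset.mem_coe.mp ht')).1.symm)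

/-- For every colour at most one user of a line wants it. -/
theorem line_unique (F : FrW A Q o u ρ) {π : L → L → L} {g c x y : L}
    (hπ : ∀ c ∈ A, c ≤ u → ∀ x ∈ A, ¬ x ≤ Q → ¬ ρ (u ⊔ x) ≤ x ⊔ c →
      AW A Q o u (x ⊔ c) (π c (x ⊔ c)))
    (hπi : ∀ c ∈ A, c ≤ u → ∀ x ∈ A, ¬ x ≤ Q → ¬ ρ (u ⊔ x) ≤ x ⊔ c →
      ∀ y ∈ A, ¬ y ≤ Q → ¬ ρ (u ⊔ y) ≤ y ⊔ c → π c (x ⊔ c) = π c (y ⊔ c) → x ⊔ c = y ⊔ c)
    (hx : x ∈ Us A Q o u ρ) (hcx : c ∈ Av A u ρ x) (hgx : g ∈ pen A x (x ⊔ c) (π c (x ⊔ c)))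
    (hy : y ∈ Us A Q o u ρ) (hcy : c ∈ Av A u ρ y) (hgy : g ∈ pen A y (y ⊔ c) (π c (y ⊔ c))) :
    x = y := by
  obtain ⟨n1, n2, -, -⟩ := mem_Us.mp hx
  obtain ⟨o1, o2, -, -⟩ := mem_Us.mp hy
  obtain ⟨p1, p2, p3⟩ := mem_Av.mp hcx
  obtain ⟨-, -, q3⟩ := mem_Av.mp hcy
  have hne : x ≠ c := fun e => F.off n2 (by rw [e]; exact p2)
  have hne' : y ≠ c := fun e => F.off o2 (by rw [e]; exact p2)
  have a1 := hπ c p1 p2 x n1 n2 p3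
  have a2 := hπ c p1 p2 y o1 o2 q3
  obtain ⟨b1, b2, -, b4, b5⟩ := pen_spec F.at_ n1 p1 hne a1.1.1 a1.1.2.1 hgx
  obtain ⟨-, d2, -, -, d5⟩ := pen_spec F.at_ o1 p1 hne' a2.1.1 a2.1.2.1 hgy
  have h6 := hπi c p1 p2 x n1 n2 p3 y o1 o2 q3 (b5.symm.trans d5)
  by_contra hpq
  have h7 : x ⊔ y = g := line_of (F.at_ _ n1) (F.at_ _ o1) hpq b2 d2 b1
  have h8 : x ⊔ y = x ⊔ c := line_of (F.at_ _ n1) (F.at_ _ o1) hpq le_sup_left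
    (by rw [h6]; exact le_sup_left) (rk_line (F.at_ _ n1) (F.at_ _ p1) hne)
  exact b4 (by rw [← h7, h8]; exact le_sup_right)

/-- The pairs (user, colour) of a line. -/
theorem line_load (F : FrW A Q o u ρ) {p : L → L → ℝ} {π : L → L → L}
    (hp0 : ∀ x ∈ A, ¬ x ≤ Q → ∀ c ∈ A, c ≤ u → 0 ≤ p x c)
    (hπ : ∀ c ∈ A, c ≤ u → ∀ x ∈ A, ¬ x ≤ Q → ¬ ρ (u ⊔ x) ≤ x ⊔ c →
      AW A Q o u (x ⊔ c) (π c (x ⊔ c)))
    (hπi : ∀ c ∈ A, c ≤ u → ∀ x ∈ A, ¬ x ≤ Q → ¬ ρ (u ⊔ x) ≤ x ⊔ c →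
      ∀ y ∈ A, ¬ y ≤ Q → ¬ ρ (u ⊔ y) ≤ y ⊔ c → π c (x ⊔ c) = π c (y ⊔ c) → x ⊔ c = y ⊔ c)
    {x c g : L} (hx : x ∈ Us A Q o u ρ) (hc : c ∈ Av A u ρ x)
    (hg : g ∈ pen A x (x ⊔ c) (π c (x ⊔ c))) :
    ∃ y : L → L, (∀ c' ∈ A, c' ≤ u → y c' ∈ A ∧ y c' ≤ g ∧ ¬ y c' ≤ Q) ∧ y c = x ∧
      ∑ t ∈ ((Us A Q o u ρ) ×ˢ A).filter (fun t => t.2 ∈ Av A u ρ t.1 ∧
        g ∈ pen A t.1 (t.1 ⊔ t.2) (π t.2 (t.1 ⊔ t.2))),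
        p t.1 t.2 / (pen A t.1 (t.1 ⊔ t.2) (π t.2 (t.1 ⊔ t.2))).card ≤
      ∑ c' ∈ A.filter (· ≤ u), p (y c') c' / (pen A (y c') (y c' ⊔ c') (g ⊔ c')).card := by
  classical
  obtain ⟨hxA, hxQ, -, -⟩ := mem_Us.mp hx
  have hspec : ∀ y c', y ∈ Us A Q o u ρ → c' ∈ Av A u ρ y →
      g ∈ pen A y (y ⊔ c') (π c' (y ⊔ c')) → y ≤ g ∧ g ⊔ c' = π c' (y ⊔ c') := by
    intro y c' hy hc' hg'
    obtain ⟨n1, n2, -, -⟩ := mem_Us.mp hy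
    obtain ⟨p1, p2, p3⟩ := mem_Av.mp hc'
    have a1 := hπ c' p1 p2 y n1 n2 p3
    obtain ⟨-, b2, -, -, b5⟩ := pen_spec F.at_ n1 p1 (fun e => F.off n2 (by rw [e]; exact p2))
      a1.1.1 a1.1.2.1 hg'
    exact ⟨b2, b5⟩
  have hxg := (hspec x c hx hc hg).1
  have hy : ∀ c', ∃ y, (y ∈ A ∧ y ≤ g ∧ ¬ y ≤ Q) ∧ ∀ y', y' ∈ Us A Q o u ρ →
      c' ∈ Av A u ρ y' → g ∈ pen A y' (y' ⊔ c') (π c' (y' ⊔ c')) → y = y' := by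
    intro c'
    by_cases h : ∃ y ∈ Us A Q o u ρ, c' ∈ Av A u ρ y ∧ g ∈ pen A y (y ⊔ c') (π c' (y ⊔ c'))
    · obtain ⟨y, h1, h2, h3⟩ := h
      obtain ⟨n1, n2, -, -⟩ := mem_Us.mp h1
      exact ⟨y, ⟨n1, (hspec y c' h1 h2 h3).1, n2⟩, fun y' k1 k2 k3 =>
        line_unique F hπ hπi h1 h2 h3 k1 k2 k3⟩
    · exact ⟨x, ⟨hxA, hxg, hxQ⟩, fun y' k1 k2 k3 => absurd ⟨y', k1, k2, k3⟩ h⟩
  choose y hy1 hy2 using hy
  refine ⟨y, fun c' _ _ => hy1 c', hy2 c x hx hc hg, ?_⟩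
  have hT : ∀ t ∈ ((Us A Q o u ρ) ×ˢ A).filter (fun t => t.2 ∈ Av A u ρ t.1 ∧
      g ∈ pen A t.1 (t.1 ⊔ t.2) (π t.2 (t.1 ⊔ t.2))), t.1 = y t.2 ∧
      g ⊔ t.2 = π t.2 (t.1 ⊔ t.2) ∧ t.2 ∈ A ∧ t.2 ≤ u := by
    intro t ht
    obtain ⟨h1, h2, h3⟩ := Finset.mem_filter.mp ht
    obtain ⟨l1, l2⟩ := Finset.mem_product.mp h1
    exact ⟨(hy2 t.2 t.1 l1 h2 h3).symm, (hspec t.1 t.2 l1 h2 h3).2, l2, (mem_Av.mp h2).2.1⟩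
  have e1 : ∀ t ∈ ((Us A Q o u ρ) ×ˢ A).filter (fun t => t.2 ∈ Av A u ρ t.1 ∧
      g ∈ pen A t.1 (t.1 ⊔ t.2) (π t.2 (t.1 ⊔ t.2))),
      p t.1 t.2 / (pen A t.1 (t.1 ⊔ t.2) (π t.2 (t.1 ⊔ t.2))).card =
      (fun c' => p (y c') c' / (pen A (y c') (y c' ⊔ c') (g ⊔ c')).card) t.2 := by
    intro t ht
    obtain ⟨h1, h2, -, -⟩ := hT t ht
    show _ = p (y t.2) t.2 / (pen A (y t.2) (y t.2 ⊔ t.2) (g ⊔ t.2)).card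
    rw [← h1, h2]
  rw [Finset.sum_congr rfl e1, ← Finset.sum_image (f := fun c' => p (y c') c' /
    (pen A (y c') (y c' ⊔ c') (g ⊔ c')).card) (g := Prod.snd)]
  · refine Finset.sum_le_sum_of_subset_of_nonneg ?_ ?_
    · intro z hz
      obtain ⟨t, ht, rfl⟩ := Finset.mem_image.mp hz
      obtain ⟨-, -, h3, h4⟩ := hT t ht
      exact Finset.mem_filter.mpr ⟨h3, h4⟩
    · intro c' hc' _
      obtain ⟨h1, h2⟩ := Finset.mem_filter.mp hc'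
      exact div_nonneg (hp0 _ (hy1 c').1 (hy1 c').2.2 c' h1 h2) (Nat.cast_nonneg _)
  · intro t ht t' ht' e
    have e' : t.2 = t'.2 := e
    refine Prod.ext ?_ e'
    rw [(hT t (Finset.mem_coe.mp ht)).1, (hT t' (Finset.mem_coe.mp ht')).1, e']

/-- **(T).**  Rank four for cores with weighted rows. -/
theorem crit4_T (hA : ∀ a ∈ A, IsAtom a) (hrA : rk (A.sup id) = 4) (hcore : Core A)
    (hu : rk u = 2) (hQ : rk Q = 3) (huQ : u ≤ Q) (hc0 : ∃ c ∈ A, c ≤ u)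
    (hQA : ∃ a ∈ A, a ≤ Q ∧ ¬ a ≤ u) (p : L → L → ℝ)
    (hp0 : ∀ x ∈ A, ¬ x ≤ Q → ∀ c ∈ A, c ≤ u → 0 ≤ p x c)
    (hp1 : ∀ x ∈ A, ¬ x ≤ Q → ∀ d ∈ A, d ≤ u →
      1 ≤ ∑ c ∈ A.filter (fun c => c ≤ u ∧ c ≠ d), p x c)
    (hload : ∀ x ∈ A, ¬ x ≤ Q → ∀ z ∈ A, z ≠ x → (∀ c ∈ A, c ≤ u → ¬ c ≤ x ⊔ z) →
      ∀ y : L → L, (∀ c ∈ A, c ≤ u → y c ∈ A ∧ y c ≤ x ⊔ z ∧ ¬ y c ≤ Q) → ∀ d ∈ A, d ≤ u →
      ∑ z' ∈ A.filter (fun z' => z' ≤ y d ⊔ d ∧ ¬ z' ≤ Q), p z' d +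
      ∑ c ∈ A.filter (· ≤ u), p (y c) c /
        (pen A (y c) (y c ⊔ c) (x ⊔ z ⊔ c)).card ≤ 1) : Crit4 A := by
  classical
  have hU : 2 ≤ (A.filter (· ≤ u)).card := by
    obtain ⟨x0, hx0, hx0Q⟩ := exists_not_le hrA (p := Q) (by omega)
    obtain ⟨d, hd, hdu⟩ := hc0
    have h1 := hp1 x0 hx0 hx0Q d hd hdu
    by_contra hlt
    have h2 : A.filter (fun c => c ≤ u ∧ c ≠ d) = ∅ := by
      apply Finset.eq_empty_of_forall_notMem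
      intro c hc
      obtain ⟨k1, k2, k3⟩ := Finset.mem_filter.mp hc
      apply hlt
      have h3 : ({c, d} : Finset L) ⊆ A.filter (· ≤ u) := by
        intro z hz
        rw [Finset.mem_insert, Finset.mem_singleton] at hz
        rcases hz with rfl | rfl
        · exact Finset.mem_filter.mpr ⟨k1, k2⟩
        · exact Finset.mem_filter.mpr ⟨hd, hdu⟩
      have h4 := Finset.card_le_card h3
      rwa [Finset.card_pair k3] at h4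
    rw [h2, Finset.sum_empty] at h1
    exact absurd h1 (by norm_num)
  obtain ⟨o, ρ, F, hNF⟩ := exists_frW hA hrA hcore hu hU hQ huQ hQA
  have hpi : ∀ c, ∃ π : L → L, c ∈ A → c ≤ u →
      (∀ x ∈ A, ¬ x ≤ Q → ¬ ρ (u ⊔ x) ≤ x ⊔ c → AW A Q o u (x ⊔ c) (π (x ⊔ c))) ∧
      (∀ x ∈ A, ¬ x ≤ Q → ¬ ρ (u ⊔ x) ≤ x ⊔ c → ∀ y ∈ A, ¬ y ≤ Q → ¬ ρ (u ⊔ y) ≤ y ⊔ c →
        π (x ⊔ c) = π (y ⊔ c) → x ⊔ c = y ⊔ c) := by
    intro c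
    by_cases h : c ∈ A ∧ c ≤ u
    · obtain ⟨π, h1, h2⟩ := exists_pi F hNF h.1 h.2
      exact ⟨π, fun _ _ => ⟨h1, h2⟩⟩
    · exact ⟨id, fun h1 h2 => absurd ⟨h1, h2⟩ h⟩
  choose π hπ using hpi
  have hπ1 : ∀ c ∈ A, c ≤ u → ∀ x ∈ A, ¬ x ≤ Q → ¬ ρ (u ⊔ x) ≤ x ⊔ c →
      AW A Q o u (x ⊔ c) (π c (x ⊔ c)) := fun c h1 h2 => (hπ c h1 h2).1
  have hπ2 : ∀ c ∈ A, c ≤ u → ∀ x ∈ A, ¬ x ≤ Q → ¬ ρ (u ⊔ x) ≤ x ⊔ c →
      ∀ y ∈ A, ¬ y ≤ Q → ¬ ρ (u ⊔ y) ≤ y ⊔ c → π c (x ⊔ c) = π c (y ⊔ c) → x ⊔ c = y ⊔ c :=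
    fun c h1 h2 => (hπ c h1 h2).2
  -- the weight of a pair
  have hsum : ∀ x ∈ Us A Q o u ρ, ∀ c ∈ Av A u ρ x,
      ∑ _g ∈ pen A x (x ⊔ c) (π c (x ⊔ c)),
        p x c / (pen A x (x ⊔ c) (π c (x ⊔ c))).card = p x c := by
    intro x hx c hc
    obtain ⟨k1, k2, -, -⟩ := mem_Us.mp hx
    obtain ⟨h1, h2, h3⟩ := mem_Av.mp hc
    obtain ⟨-, y, hy, hyH, hyk⟩ := hπ1 c h1 h2 x k1 k2 h3
    have h4 : 0 < (pen A x (x ⊔ c) (π c (x ⊔ c))).card :=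
      Finset.card_pos.mpr ⟨x ⊔ y, mem_pen.mpr ⟨y, hy, hyH, hyk, rfl⟩⟩
    rw [Finset.sum_const, nsmul_eq_mul]
    have h5 : ((pen A x (x ⊔ c) (π c (x ⊔ c))).card : ℝ) ≠ 0 := by
      exact_mod_cast h4.ne'
    exact mul_div_cancel₀ _ h5
  refine crit4_of_rainbow F (G := Av A u ρ) (π := π)
    (W := fun t _ => p t.1 t.2 / (pen A t.1 (t.1 ⊔ t.2) (π t.2 (t.1 ⊔ t.2))).card) ?_ ?_ ?_ ?_ ?_ ?_
  · intro x _ c hc
    exact mem_Av.mp hc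
  · intro c hc hcu x h1 h2 h3
    exact (hπ1 c hc hcu x h1 h2 h3).1
  · exact hπ2
  · intro x hx c hc g _
    obtain ⟨k1, k2, -, -⟩ := mem_Us.mp hx
    obtain ⟨h1, h2, -⟩ := mem_Av.mp hc
    exact div_nonneg (hp0 x k1 k2 c h1 h2) (Nat.cast_nonneg _)
  · -- the loads
    intro x hx c hc g hg
    obtain ⟨hxA, hxQ, -, -⟩ := mem_Us.mp hx
    obtain ⟨hcA, hcu, hcr⟩ := mem_Av.mp hc
    obtain ⟨y, hy1, hy2, hy3⟩ := line_load F hp0 hπ1 hπ2 hx hc hg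
    have h1 := row_load F hp0 hx hc
    have a1 := hπ1 c hcA hcu x hxA hxQ hcr
    have hxc : x ≠ c := fun e => F.off hxQ (by rw [e]; exact hcu)
    obtain ⟨-, -, b3, b4, -⟩ := pen_spec F.at_ hxA hcA hxc a1.1.1 a1.1.2.1 hg
    obtain ⟨z, hz, hzH, hzk, rfl⟩ := mem_pen.mp hg
    have h2 := hload x hxA hxQ z hz (fun e => hzk (e ▸ le_sup_left)) (by
      intro c' hc' hcu' h3
      by_cases h4 : c = c'
      · exact b4 (h4 ▸ h3)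
      · have h5 : c ⊔ c' = u := line_of (hA c hcA) (hA c' hc') h4 hcu hcu' hu
        exact a1.1.2.2.1 (h5 ▸ sup_le (le_sup_right.trans a1.1.2.1) (h3.trans b3))) y hy1 c hcA hcu
    rw [hy2] at h2
    refine le_trans (add_le_add (le_trans (le_of_eq ?_) h1) hy3) h2
    refine Finset.sum_congr rfl (fun t ht => ?_)
    obtain ⟨h3, h4, -⟩ := Finset.mem_filter.mp ht
    exact hsum t.1 (Finset.mem_product.mp h3).1 t.2 h4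
  · -- the classes
    intro x hx
    obtain ⟨hxA, hxQ, -, -⟩ := mem_Us.mp hx
    show 1 ≤ ∑ c ∈ Av A u ρ x, ∑ _g ∈ pen A x (x ⊔ c) (π c (x ⊔ c)),
        p x c / (pen A x (x ⊔ c) (π c (x ⊔ c))).card
    rw [Finset.sum_congr rfl (fun c hc => hsum x hx c hc)]
    obtain ⟨d, hd, hdu, h1⟩ := exists_d F hx
    refine (hp1 x hxA hxQ d hd hdu).trans (Finset.sum_le_sum_of_subset_of_nonneg ?_ ?_)
    · intro c hc
      obtain ⟨k1, k2, k3⟩ := Finset.mem_filter.mp hc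
      exact h1 c k1 k2 k3
    · intro c hc _
      obtain ⟨k1, k2, -⟩ := mem_Av.mp hc
      exact hp0 x hxA hxQ c k1 k2

end

end Pool.Agent.Helper74.RC.RB
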